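import Pool.Agent.Y460.NS.Grow

/-!
# MP_56bc24_co: the growth of the number of numerical semigroups by genus, with explicit constants

`NS g` is the set of all numerical semigroups of genus `g` and `n g` their number. We show that
`n (g + 1) > n g` for all `g ≥ 1` (Q1), in the following stronger forms.

* `n (g + 1) ≥ 26 / 25 * n g` for all `g ≥ 1`, and `n (g + 1) ≤ 3 * n g` for all `g`;
* `n (g + 1) - n g ≥ φ ^ g / 8` for all `g ≥ 1`, `φ` the golden ratio (this is the true exponential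
  order);
* `n (g + 2) ≥ n (g + 1) + n g - 7468 * (8 / 5) ^ g` for all `g`; as `8 / 5 < φ`, the error is
  exponentially smaller than the terms; for `g ≥ 1200` it is at most one percent of their sum, and
  `n (g + 1) ≥ 1.49 * n g`;
* for all `g` at most `2872 * (8 / 5) ^ g` numerical semigroups of genus `g` have a gap which is
  larger than three times the multiplicity (`Deep g`); for comparison `n g ≥ 2 * φ ^ g` for all
  `g ≥ 20`.

The estimates of the starting file (the bound for the number of the semigroups of depth at least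
four, by words and a kernel computation up to the genus 700) are used with a factor.
-/

set_option autoImplicit false

namespace Pool.Agent.Results.MP_56bc24_co.FibonacciGrowth

open Pool.Agent.H502R2 Pool.Agent.Y460.NS
open scoped goldenRatio

/-- the set of all numerical semigroups of genus `g`: subsets `S` of `ℕ` containing `0`, closed
under addition, with exactly `g` gaps (the complement is finite and has `g` elements) -/
def NS (g : ℕ) : Set (Set ℕ) :=
  {S | 0 ∈ S ∧ (∀ a ∈ S, ∀ b ∈ S, a + b ∈ S) ∧ Sᶜ.Finite ∧ Sᶜ.ncard = g}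

/-- the number of the numerical semigroups of genus `g` -/
noncomputable def n (g : ℕ) : ℕ := (NS g).ncard

/-- the multiplicity: the least positive element -/
noncomputable def mult (S : Set ℕ) : ℕ := sInf {x | x ∈ S ∧ 0 < x}

/-- the numerical semigroups of genus `g` with a gap larger than three times the multiplicity -/
def Deep (g : ℕ) : Set (Set ℕ) := {S | S ∈ NS g ∧ ∃ x, x ∉ S ∧ 3 * mult S < x}

theorem exists_SG {g : ℕ} {S : Set ℕ} (hS : S ∈ NS g) : ∃ T ∈ SG g, (T : Set ℕ) = S := by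
  obtain ⟨h0, h1, h2, h3⟩ := hS
  exact ⟨{ carrier := S, zero_mem' := h0, add_mem' := fun {a b} ha hb => h1 a ha b hb },
    ⟨h2, h3⟩, rfl⟩

theorem NS_eq (g : ℕ) : NS g = (fun S : AddSubmonoid ℕ => (S : Set ℕ)) '' SG g := by
  ext S
  constructor
  · intro hS
    obtain ⟨T, hT, h⟩ := exists_SG hS
    exact ⟨T, hT, h⟩
  · rintro ⟨T, hT, rfl⟩
    exact ⟨T.zero_mem, fun a ha b hb => T.add_mem ha hb, hT.1, hT.2⟩

theorem n_eq (g : ℕ) : n g = ng g := by
  rw [n, ng, NS_eq]
  exact Set.ncard_image_of_injective _ SetLike.coe_injective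

theorem n_pos (g : ℕ) : 1 ≤ n g := by
  have h0 : (NS g).Finite := by
    rw [NS_eq]
    exact (SG_finite g).image _
  have h1 : ({x | x = 0 ∨ g < x} : Set ℕ) ∈ NS g := by
    have h2 : ({x | x = 0 ∨ g < x} : Set ℕ)ᶜ = (Finset.Icc 1 g : Finset ℕ) := by
      ext x
      simp only [Set.mem_compl_iff, Set.mem_ofPred_eq, Finset.coe_Icc, Set.mem_Icc]
      omega
    refine ⟨Or.inl rfl, ?_, ?_, ?_⟩
    · intro a ha b hb
      simp only [Set.mem_ofPred_eq] at ha hb ⊢
      omega
    · rw [h2]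
      exact Finset.finite_toSet _
    · rw [h2, Set.ncard_coe_finset, Nat.card_Icc]
      omega
  have h3 := (Set.ncard_pos h0).2 ⟨_, h1⟩
  exact h3

theorem result :
    (∀ g : ℕ, (NS g).Finite) ∧
    (∀ g : ℕ, 1 ≤ g → n g < n (g + 1)) ∧
    (∀ g : ℕ, 1 ≤ g → 26 * n g ≤ 25 * n (g + 1)) ∧
    (∀ g : ℕ, n (g + 1) ≤ 3 * n g) ∧
    (∀ g : ℕ, 1 ≤ g → (n g : ℝ) + φ ^ g / 8 ≤ n (g + 1)) ∧
    (∀ g : ℕ, (n (g + 1) : ℝ) + n g ≤ n (g + 2) + 7468 * (8 / 5 : ℝ) ^ g) ∧
    (∀ g : ℕ, 1200 ≤ g → 99 * (n (g + 1) + n g) ≤ 100 * n (g + 2) ∧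
      149 * n g ≤ 100 * n (g + 1)) ∧
    (∀ g : ℕ, ((Deep g).ncard : ℝ) ≤ 2872 * (8 / 5 : ℝ) ^ g) ∧
    ∀ g : ℕ, 20 ≤ g → 2 * φ ^ g ≤ (n g : ℝ) := by
  refine ⟨fun g => ?_, fun g hg => ?_, fun g hg => ?_, fun g => ?_, fun g hg => ?_, fun g => ?_,
    fun g hg => ?_, fun g => ?_, fun g hg => ?_⟩
  · rw [NS_eq]
    exact (SG_finite g).image _
  · have h1 := ng_factor g hg
    have h2 := n_pos g
    rw [n_eq] at h2 ⊢
    rw [n_eq]
    omega
  · rw [n_eq, n_eq]
    exact ng_factor g hg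
  · rw [n_eq, n_eq]
    exact ng_upper g
  · rw [n_eq, n_eq]
    exact ng_increment g hg
  · rw [n_eq, n_eq, n_eq]
    exact ng_fib g
  · rw [n_eq, n_eq, n_eq]
    exact ⟨ng_fib_large g hg, ng_large g hg⟩
  · refine deep_le g fun S hS => ?_
    obtain ⟨T, hT, h⟩ := exists_SG hS.1
    exact ⟨T, hT, h, hS.2⟩
  · rw [n_eq]
    obtain ⟨k, rfl⟩ := Nat.exists_eq_add_of_le hg
    refine (Tt_phi k).trans ?_
    have h1 := Tt_le (20 + k)
    have h2 := TW_le (20 + k)
    exact_mod_cast h1.trans h2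

end Pool.Agent.Results.MP_56bc24_co.FibonacciGrowth
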